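import Pool.Agent.H29.LA.Targets

/-!
# The ring of the roots (row SPL)
-/

set_option autoImplicit false

open Polynomial

noncomputable section

namespace Pool.Agent.H29.LA

/-- a polynomial over a domain which splits is a product over `Fin m` -/
theorem exists_fin_roots {S : Type} [Field S] (g : S[X]) (hg : g.Monic) (hs : g.Splits) (m : ℕ)
    (hm : g.natDegree = m) : ∃ y : Fin m → S, g = ∏ i, (X - C (y i)) := by
  have hcard : g.roots.toList.length = m := by
    rw [Multiset.length_toList, ← hs.natDegree_eq_card_roots, hm]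
  subst hcard
  refine ⟨fun i => g.roots.toList.get i, ?_⟩
  have h1 : (List.ofFn fun i => g.roots.toList.get i) = g.roots.toList := List.ofFn_get _
  have h2 : ∏ i, (X - C (g.roots.toList.get i)) =
      ((List.ofFn fun i => g.roots.toList.get i).map (fun a => (X - C a : S[X]))).prod := by
    rw [List.map_ofFn, List.prod_ofFn]
    rfl
  rw [h2, h1]
  conv_lhs => rw [hs.eq_prod_roots_of_monic hg]
  conv_lhs => rw [← Multiset.coe_toList g.roots]
  rw [Multiset.map_coe, Multiset.prod_coe]

theorem pf_SPL : T_SPL := by
  intro K _ m f hf hm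
  let k := FractionRing K[X]
  let g : k[X] := f.map (algebraMap K[X] k)
  let Sp := g.SplittingField
  have hinj : Function.Injective (algebraMap K[X] Sp) := by
    rw [IsScalarTower.algebraMap_eq K[X] k Sp]
    exact (algebraMap k Sp).injective.comp (IsFractionRing.injective K[X] k)
  have hgS : f.map (algebraMap K[X] Sp) = g.map (algebraMap k Sp) := by
    rw [Polynomial.map_map, IsScalarTower.algebraMap_eq K[X] k Sp]
  have hmon : (f.map (algebraMap K[X] Sp)).Monic := hf.map _
  have hsp : (f.map (algebraMap K[X] Sp)).Splits := by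
    rw [hgS]; exact Polynomial.SplittingField.splits g
  obtain ⟨y₀, hy₀⟩ := exists_fin_roots _ hmon hsp m (by rw [hf.natDegree_map, hm])
  let R := Algebra.adjoin K[X] (Set.range y₀)
  let y : Fin m → R := fun i => ⟨y₀ i, Algebra.subset_adjoin ⟨i, rfl⟩⟩
  have hroot : ∀ i, eval₂ (algebraMap K[X] Sp) (y₀ i) f = 0 := by
    intro i
    rw [← Polynomial.eval_map, hy₀, Polynomial.eval_prod]
    exact Finset.prod_eq_zero (Finset.mem_univ i) (by simp)
  have hint : Algebra.IsIntegral K[X] R := by
    apply Algebra.IsIntegral.adjoin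
    rintro _ ⟨i, rfl⟩
    exact ⟨f, hf, hroot i⟩
  refine ⟨R, inferInstance, inferInstance, inferInstance, y, ?_, hint, ?_, ?_⟩
  · intro a b hab
    apply hinj
    exact congrArg Subtype.val hab
  · apply Polynomial.map_injective (algebraMap R Sp) Subtype.val_injective
    rw [Polynomial.map_map, ← IsScalarTower.algebraMap_eq, hy₀, Polynomial.map_prod]
    refine Finset.prod_congr rfl fun i _ => ?_
    rw [Polynomial.map_sub, Polynomial.map_X, Polynomial.map_C]
    rfl
  · have h1 : Set.range y = (Subtype.val : R → Sp) ⁻¹' (Set.range y₀) := by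
      ext a
      constructor
      · rintro ⟨i, rfl⟩; exact ⟨i, rfl⟩
      · rintro ⟨i, hi⟩; exact ⟨i, Subtype.ext hi⟩
    rw [h1]
    exact Algebra.adjoin_adjoin_coe_preimage

end Pool.Agent.H29.LA
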