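import Pool.Agent.H29.LA.TRN
import Pool.Agent.H29.LA.SPL
import Pool.Agent.H63.LA.ABS
import Pool.Agent.H82.LA.AVG
import Pool.Agent.H33.LAR.CJR
import Pool.Agent.H68.LA.CLS
import Pool.Agent.H35.LA.DSC
import Pool.Agent.H58.LA.EVA
import Pool.Agent.H60.LA.EXV
import Pool.Agent.H58.LA.FAC
import Pool.Agent.H34.LA.GRA
import Pool.Agent.H56.LA.GRC
import Pool.Agent.H26.LA.GRD
import Pool.Agent.H60.LA.HOM
import Pool.Agent.H13.LA.IND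
import Pool.Agent.H13.LA.INH
import Pool.Agent.H58.LA.IRR
import Pool.Agent.H36.LA.LOC
import Pool.Agent.H36.LA.NEA
import Pool.Agent.H86.LA.NTR
import Pool.Agent.H64.LAR.ORB
import Pool.Agent.H63.LA.PAR
import Pool.Agent.H49.LA.PCK
import Pool.Agent.H39.LA.PNT
import Pool.Agent.H13.LA.RVL
import Pool.Agent.H20.LAR.TRC
import Pool.Agent.H20.LAR.UNR

/-!
# Assembly (MP_6b5a9a_nt)
-/

set_option autoImplicit false

namespace Pool.Agent.H29.LA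

theorem cls : T_CLS :=
  Pool.Agent.H68.LA.pf_CLS Pool.Agent.H34.LA.pf_GRA
    (Pool.Agent.H56.LA.pf_GRC Pool.Agent.H26.LA.pf_GRD) Pool.Agent.H13.LA.pf_INH
    Pool.Agent.H58.LA.pf_FAC

theorem trn (hUNS : T_UNS) : T_TRN :=
  pf_TRN Pool.Agent.H60.LA.pf_EXV hUNS Pool.Agent.H13.LA.pf_RVL Pool.Agent.H33.LAR.pf_CJR
    Pool.Agent.H58.LA.pf_IRR Pool.Agent.H36.LA.pf_LOC

theorem pnt (hUNS : T_UNS) (hCHR : T_CHR) : T_PNT :=
  Pool.Agent.H39.LA.pf_PNT (trn hUNS) hCHR Pool.Agent.H49.LA.pf_PCK Pool.Agent.H13.LA.pf_IND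

theorem abs' (hUNS : T_UNS) (hCHR : T_CHR) : T_ABS :=
  Pool.Agent.H63.LA.pf_ABS (pnt hUNS hCHR) Pool.Agent.H35.LA.pf_DSC Pool.Agent.H20.LAR.pf_TRC
    (Pool.Agent.H64.LAR.pf_ORB Pool.Agent.H63.LA.pf_PAR) Pool.Agent.H82.LA.pf_AVG

end Pool.Agent.H29.LA
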