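import Pool.Agent.H29.LA.Main
import Pool.Agent.H16.LA.UNS
import Pool.Agent.H20.LAR.FIN
import Pool.Agent.H20.LAR.NTF
import Pool.Agent.H91.LA.CHR
import Pool.Agent.H91.LA.FLD

/-!
# Assembly (MP_6b5a9a_nt)
-/

set_option autoImplicit false

namespace Pool.Agent.H29.LA

theorem ntf : T_NTF :=
  Pool.Agent.H20.LAR.pf_NTF Pool.Agent.H35.LA.pf_DSC pf_SPL Pool.Agent.H60.LA.pf_HOM
    Pool.Agent.H58.LA.pf_EVA Pool.Agent.H86.LA.pf_NTR Pool.Agent.H36.LA.pf_NEA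

theorem fin : T_FIN :=
  Pool.Agent.H20.LAR.pf_FIN
    (abs' (Pool.Agent.H16.LA.pf_UNS Pool.Agent.H20.LAR.pf_UNR) Pool.Agent.H91.LA.pf_CHR) ntf
    Pool.Agent.H91.LA.pf_FLD Pool.Agent.H35.LA.pf_DSC

end Pool.Agent.H29.LA
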