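import Mathlib
import Pool.Agent.H27.LG.Stmt2

/-!
# The definitions used in the statement about curves with a totally ramified point in group schemes
(MP_6b5a9a_nt)
-/

set_option autoImplicit false

open AlgebraicGeometry CategoryTheory Polynomial
open scoped MonObj TensorProduct
open Pool.H27.LG2

noncomputable section

namespace Pool.Agent.H29.LA

section Curve

variable {K : Type} [Field K]

/-- the polynomial `f(x, Y)` in `Y`, for a polynomial `f` in `X` and `Y` (a polynomial in `Y` whose
coefficients are polynomials in `X`) -/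
def fib (f : K[X][X]) (x : K) : K[X] := f.map (evalRingHom x)

/-- the coordinate ring `K[x, y, 1 / h(x)] / (f(x, y))` of the open part `h(x) ≠ 0` of the plane
curve `f(x, y) = 0` -/
abbrev PlaneRing (f : K[X][X]) (h : K[X]) : Type := Localization.Away (AdjoinRoot.of f h)

/-- evaluation at a point of the curve `f(x, y) = 0` -/
def ev (f : K[X][X]) (x z : K) (hz : (fib f x).eval z = 0) : AdjoinRoot f →ₐ[K] K :=
  AdjoinRoot.liftAlgHom _ (aeval x) z (by
    change eval₂ ((aeval x : K[X] →ₐ[K] K) : K[X] →+* K) z f = 0
    rw [fib, Polynomial.eval_map] at hz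
    exact hz)

/-- evaluation at a point of the open part of the curve -/
def evh (f : K[X][X]) (h : K[X]) (x z : K) (hz : (fib f x).eval z = 0) (hx : h.eval x ≠ 0) :
    PlaneRing f h →ₐ[K] K :=
  IsLocalization.liftAlgHom (M := Submonoid.powers (AdjoinRoot.of f h)) (f := ev f x z hz) (by
    rintro ⟨_, n, rfl⟩
    change IsUnit (ev f x z hz (AdjoinRoot.of f h ^ n))
    rw [map_pow, ev, AdjoinRoot.liftAlgHom_of, coe_aeval_eq_eval]
    exact (Ne.isUnit hx).pow n)

variable {F : Type} [Field F] [Algebra F K]

/-- the morphism `Spec S → Spec R` over `F` given by a homomorphism `R → S` of `F`-algebras -/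
def specMap {R S : Type} [CommRing R] [CommRing S] [Algebra F R] [Algebra F S] (g : R →ₐ[F] S) :
    SpecOver F S ⟶ SpecOver F R :=
  Over.homMk (Spec.map (CommRingCat.ofHom g.toRingHom)) (by
    change Spec.map _ ≫ Spec.map _ = Spec.map _
    rw [← Spec.map_comp, ← CommRingCat.ofHom_comp]
    congr 2
    exact g.comp_algebraMap)

open Classical in
/-- the value `δ(x, z)` of the morphism `δ` from the part `h(x) ≠ 0` of the curve `f(x, y) = 0` to
the group scheme `A` at the point `(x, z)`; it is `1` by convention if `(x, z)` is not a point of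
this part of the curve -/
def val {A : Over (Spec (.of F))} [GrpObj A] {f : K[X][X]} {h : K[X]}
    (δ : PointsOf A (PlaneRing f h)) (x z : K) : PointsOf A K :=
  if H : (fib f x).eval z = 0 ∧ h.eval x ≠ 0 then
    specMap ((evh f h x z H.1 H.2).restrictScalars F) ≫ δ else 1

variable (K) in
/-- `A` receives a curve of degree `m`: there is a plane curve `f(x, y) = 0` over `K`, `f` monic of
degree `m` in `y`, with a smooth point `(x₀, z₀)` which is the only point above `x₀`, and a morphism
`δ` over `F` from its part `h(x) ≠ 0`, `h(x₀) ≠ 0`, to `A`, such that there is a fibre `Z` of `x`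
with `m` distinct points, `Z = {z | f(x₁, z) = 0}`, `h(x₁) ≠ 0`, no part of which has the same
average as the whole fibre: `(∏_{z ∈ O} δ(x₁, z)) ^ m ≠ (∏_{z ∈ Z} δ(x₁, z)) ^ |O|` for every
nonempty proper subset `O` of `Z`. If the characteristic is not two the discriminant of `f` is also
required to be the product of a polynomial which splits over `K` and a square. -/
def ReceivesCurve (K : Type) [Field K] [Algebra F K] (A : Over (Spec (.of F))) [GrpObj A]
    [IsCommMonObj A] (m : ℕ) : Prop :=
  ∃ (f : K[X][X]) (h : K[X]) (δ : PointsOf A (PlaneRing f h)) (x₀ z₀ x₁ : K) (Z : Finset K),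
    f.Monic ∧ f.natDegree = m ∧ fib f x₀ = (X - C z₀) ^ m ∧
    (derivative (f.eval (C z₀))).eval x₀ ≠ 0 ∧ h.eval x₀ ≠ 0 ∧
    h.eval x₁ ≠ 0 ∧ (∀ z, z ∈ Z ↔ (fib f x₁).eval z = 0) ∧ Z.card = m ∧
    (∀ O : Finset K, O ⊂ Z → O.Nonempty →
      (∏ z ∈ O, val δ x₁ z) ^ m ≠ (∏ z ∈ Z, val δ x₁ z) ^ O.card) ∧
    ((2 : F) ≠ 0 → ∃ D S : K[X], D.Splits ∧ f.discr = D * S ^ 2)

end Curve

section Group

variable {F Ω : Type} [Field F] [Field Ω] [Algebra F Ω]

/-- Let `G` be the closure of the group `Γ` of automorphisms of `Ω` over `F`. All continuous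
transitive actions on `m` points of all sufficiently small open subgroups of `G` contain an odd
permutation; in characteristic two there are no such actions. (The open subgroups are given by
finite extensions `M` of `F`, they are the closures of the groups of the elements of `Γ` which are
trivial on `M`, and the continuous actions are those of these groups which are trivial for the
elements which are trivial on a finite extension `E`.) -/
def OddActions (m : ℕ) (Γ : Subgroup (Ω ≃ₐ[F] Ω)) : Prop :=
  ∃ M₀ : IntermediateField F Ω, FiniteDimensional F M₀ ∧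
    ∀ M E : IntermediateField F Ω, M₀ ≤ M → FiniteDimensional F M → FiniteDimensional F E →
    ∀ φ : (Γ ⊓ M.fixingSubgroup : Subgroup (Ω ≃ₐ[F] Ω)) →* Equiv.Perm (Fin m),
      (∀ g : ↥(Γ ⊓ M.fixingSubgroup), (g : Ω ≃ₐ[F] Ω) ∈ E.fixingSubgroup → φ g = 1) → (∀ i j, ∃ g, φ g i = j) →
      (2 : F) ≠ 0 ∧ ∃ g, Equiv.Perm.sign (φ g) = -1

/-- The closure of `Γ` has an open subgroup whose finite quotients have the property `P`: there is a
finite extension `M₀` of `F` such that for every finite Galois extension `E` of `F` the group of the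
automorphisms of `E` which are induced by the elements of `Γ` which are trivial on `M₀` has the
property `P`. -/
def Virtually (P : ∀ (G : Type) [Group G], Prop) (Γ : Subgroup (Ω ≃ₐ[F] Ω)) : Prop :=
  ∃ M₀ : IntermediateField F Ω, FiniteDimensional F M₀ ∧
    ∀ E : IntermediateField F Ω, FiniteDimensional F E → ∀ [IsGalois F E],
      P ((Γ ⊓ M₀.fixingSubgroup).map (AlgEquiv.restrictNormalHom E))

/-- the order of the group is prime to `l` -/
def OrderPrimeTo (l : ℕ) (G : Type) [Group G] : Prop := (Nat.card G).Coprime l

/-- the Sylow `2`-subgroups are cyclic -/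
def CyclicSylowTwo (G : Type) [Group G] : Prop := ∀ P : Sylow 2 G, IsCyclic P

/-- the group is supersolvable: it has a finite chain of normal subgroups, from the trivial group to
the whole group, with cyclic factors -/
def Supersolvable (G : Type) [Group G] : Prop :=
  ∃ (r : ℕ) (N : ℕ → Subgroup G), (∀ i, (N i).Normal) ∧ N 0 = ⊥ ∧ N r = ⊤ ∧
    ∀ i, ∃ g : G, N (i + 1) = N i ⊔ Subgroup.zpowers g

end Group

end Pool.Agent.H29.LA
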