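import Pool.Agent.H29.LA.Targets

/-!
# The fibre is totally ramified and the conjugate fibres are unramified (row TRN)
-/

set_option autoImplicit false

open AlgebraicGeometry CategoryTheory Polynomial IntermediateField
open scoped MonObj TensorProduct WithZero

noncomputable section

namespace Pool.Agent.H29.LA

section
variable {K L : Type} [Field K] [Field L] (i : K →+* L)

theorem fib_map (f : K[X][X]) (x : K) : fib (f.map (mapRingHom i)) (i x) = (fib f x).map i := by
  unfold fib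
  rw [Polynomial.map_map, Polynomial.map_map]
  congr 1
  apply Polynomial.ringHom_ext
  · intro a; simp
  · simp

theorem eval_C_map (f : K[X][X]) (z : K) :
    (f.map (mapRingHom i)).eval (C (i z)) = (f.eval (C z)).map i := by
  have h1 : C (i z) = mapRingHom i (C z) := by simp
  rw [Polynomial.eval_map, h1, Polynomial.eval₂_hom]
  rfl

theorem ram_map {m : ℕ} {f : K[X][X]} {x₀ z₀ : K} (h : Ram m f x₀ z₀) :
    Ram m (f.map (mapRingHom i)) (i x₀) (i z₀) where
  monic := h.monic.map _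
  deg := by rw [h.monic.natDegree_map, h.deg]
  fib := by
    rw [fib_map, h.fib, Polynomial.map_pow, Polynomial.map_sub, Polynomial.map_X,
      Polynomial.map_C]
  smooth := by
    rw [eval_C_map, Polynomial.derivative_map, Polynomial.eval_map, Polynomial.eval₂_hom]
    exact (_root_.map_ne_zero i).2 h.smooth

end

theorem pf_TRN (hEXV : T_EXV) (hUNS : T_UNS) (hRVL : T_RVL) (hCJR : T_CJR) (hIRR : T_IRR)
    (hLOC : T_LOC) : T_TRN := by
  classical
  intro F Ω _ _ _ _ m M _ _ f x₀ z₀ hm hmF hRam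
  have hmM : (m : M) ≠ 0 := by
    have h1 : (m : M) = algebraMap F M m := (map_natCast _ _).symm
    rw [h1]; exact (_root_.map_ne_zero _).2 hmF
  let fd : (M ≃ₐ[F] M) → M[X][X] := fun d => f.map (mapRingHom (d : M →+* M))
  have hRd : ∀ d : M ≃ₐ[F] M, Ram m (fd d) (d x₀) (d z₀) := fun d =>
    ram_map (d : M →+* M) hRam
  choose E hE0 hE using fun d => hLOC M m (fd d) (d x₀) (d z₀) hm hmM (hRd d)
  have : Fintype (M ≃ₐ[F] M) := Fintype.ofFinite _
  refine ⟨Finset.univ.biUnion E, ?_, ?_⟩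
  · intro e he
    obtain ⟨d, -, hd⟩ := Finset.mem_biUnion.1 he
    exact hE0 d e hd
  intro w π x hwE hπ hk hr z z' hz hz'
  obtain ⟨k, hk0, hkm, hkx⟩ := hk
  have hE1 : ∀ d, ∀ e ∈ E d, w e = 1 := fun d e he =>
    hwE e (Finset.mem_biUnion.2 ⟨d, Finset.mem_univ _, he⟩)
  obtain ⟨W, hπ0, hπ1, hW⟩ := hEXV M Ω w π hπ
  set V := W.valuation with hV
  -- transfer of inequalities
  have hle : ∀ (a : M) (n : ℤ), w a ≤ WithZero.exp (-n) →
      V (algebraMap M Ω a) ≤ V (algebraMap M Ω π) ^ n := by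
    intro a n ha
    by_cases ha0 : a = 0
    · rw [ha0, map_zero, map_zero]; exact zero_le'
    · have hw0 : w a ≠ 0 := (Valuation.ne_zero_iff w).2 ha0
      have h1 : w a = WithZero.exp (-(-WithZero.log (w a))) := by
        rw [neg_neg, WithZero.exp_log hw0]
      rw [h1, WithZero.exp_le_exp] at ha
      rw [hW a _ h1]
      exact zpow_le_zpow_right_of_le_one₀ hπ0 hπ1.le (by linarith)
  have hPw : Pw M V (V (algebraMap M Ω π)) := by
    intro a ha0
    have hw0 : w a ≠ 0 := (Valuation.ne_zero_iff w).2 ha0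
    refine ⟨-WithZero.log (w a), hW a _ ?_⟩
    rw [neg_neg, WithZero.exp_log hw0]
  have hVm : V (m : Ω) = 1 := by
    have h1 := hW (m : M) 0 (by
      rw [(hE 1 _ w (hE1 1)).1, neg_zero, WithZero.exp_zero])
    rw [zpow_zero, map_natCast] at h1
    exact h1
  -- the shifted fibre polynomials
  let p : (M ≃ₐ[F] M) → M[X] := fun d => (fib (fd d) (d x)).comp (X + C (d z₀))
  have hpm : ∀ d, (p d).Monic := by
    intro d
    refine Monic.comp ((hRd d).monic.map _) (monic_X_add_C _) ?_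
    rw [natDegree_X_add_C]; exact one_ne_zero
  have hpd : ∀ d, (p d).natDegree = m := by
    intro d
    change ((fib (fd d) (d x)).comp (X + C (d z₀))).natDegree = m
    rw [natDegree_comp, natDegree_X_add_C, mul_one]
    unfold fib
    rw [(hRd d).monic.natDegree_map, (hRd d).deg]
  have hwx : ∀ d : M ≃ₐ[F] M, ∃ n : ℕ, 0 < n ∧ (d ≠ 1 → ∃ r : ℕ, 0 < r ∧ n = r * m) ∧
      w (d x - d x₀) = WithZero.exp (-(n : ℤ)) := by
    intro d
    by_cases hd : d = 1
    · subst hd
      exact ⟨k, hk0, fun h => absurd rfl h, hkx⟩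
    · obtain ⟨r, hr0, hr1⟩ := hr d hd
      refine ⟨r * m, Nat.mul_pos hr0 hm, fun _ => ⟨r, hr0, rfl⟩, ?_⟩
      rw [← map_sub]; exact hr1
  have hcoef : ∀ (d : M ≃ₐ[F] M) (n : ℕ), 0 < n → w (d x - d x₀) = WithZero.exp (-(n : ℤ)) →
      (∀ i < m, V (algebraMap M Ω ((p d).coeff i)) ≤ V (algebraMap M Ω π) ^ n) ∧
      V (algebraMap M Ω ((p d).coeff 0)) = V (algebraMap M Ω π) ^ n := by
    intro d n hn hx
    have hlt : w (d x - d x₀) < 1 := by
      rw [hx, ← WithZero.exp_zero, WithZero.exp_lt_exp]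
      omega
    obtain ⟨h1, h2⟩ := (hE d _ w (hE1 d)).2 (d x) hlt
    rw [hx] at h1 h2
    refine ⟨fun i hi => ?_, ?_⟩
    · have := hle _ (n : ℤ) (h1 i hi)
      rwa [zpow_natCast] at this
    · have := hW _ (n : ℤ) h2
      rwa [zpow_natCast] at this
  -- the rescaled roots of the conjugate fibres
  have hG : ∀ d : M ≃ₐ[F] M, ∃ (r : ℕ) (G : M[X]), d ≠ 1 → (G.Monic ∧
      (∀ i, V (algebraMap M Ω (G.coeff i)) ≤ 1) ∧
      ∀ t : Ω, aeval t (p d) = 0 → aeval (t / algebraMap M Ω π ^ r) G = 0 ∧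
        V (aeval (t / algebraMap M Ω π ^ r) (derivative G)) = 1) := by
    intro d
    by_cases hd : d = 1
    · exact ⟨0, 0, fun h => absurd hd h⟩
    · obtain ⟨n, hn, hn', hx⟩ := hwx d
      obtain ⟨r, hr0, rfl⟩ := hn' hd
      obtain ⟨h1, h2⟩ := hcoef d (r * m) hn hx
      obtain ⟨G, hG⟩ := hCJR M Ω _ V π (p d) r hr0 hπ0 hπ1 (hpm d) (by rw [hpd]; exact hm)
        (by rw [hpd]; exact hVm) (by rw [hpd]; exact h1) (by rw [hpd]; exact h2)
      exact ⟨r, G, fun _ => hG⟩
  choose r G hG using hG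
  set S : Finset Ω := (Finset.univ.filter (fun d : M ≃ₐ[F] M => d ≠ 1)).biUnion (fun d =>
    ((p d).aroots Ω).toFinset.image (fun t => t / algebraMap M Ω π ^ r d)) with hS
  have hUS := hUNS M Ω _ V π S hπ0 hπ1 hPw (by
    intro u hu
    obtain ⟨d, hd, hu1⟩ := Finset.mem_biUnion.1 hu
    obtain ⟨t, ht, rfl⟩ := Finset.mem_image.1 hu1
    have hd1 := (Finset.mem_filter.1 hd).2
    rw [Multiset.mem_toFinset, mem_aroots] at ht
    obtain ⟨h1, h2, h3⟩ := hG d hd1
    obtain ⟨h4, h5⟩ := h3 t ht.2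
    exact ⟨G d, h1, h2, h4, h5⟩)
  set E' : IntermediateField M Ω := IntermediateField.adjoin M (S : Set Ω) with hE'
  -- the fibre
  have hx1 : w ((1 : M ≃ₐ[F] M) x - (1 : M ≃ₐ[F] M) x₀) = WithZero.exp (-(k : ℤ)) := hkx
  obtain ⟨hc1, hc2⟩ := hcoef 1 k hk0 hx1
  have hfib1 : fib (fd 1) ((1 : M ≃ₐ[F] M) x) = fib f x := by
    have h1 := fib_map ((1 : M ≃ₐ[F] M) : M →+* M) f x
    have h2 : ((1 : M ≃ₐ[F] M) : M →+* M) = RingHom.id M := rfl
    have h3 : (fib f x).map ((1 : M ≃ₐ[F] M) : M →+* M) = fib f x := by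
      rw [h2, Polynomial.map_id]
    exact h1.trans h3
  have hp1 : p 1 = (fib f x).comp (X + C z₀) := by
    change (fib (fd 1) ((1 : M ≃ₐ[F] M) x)).comp (X + C z₀) = _
    rw [hfib1]
  have hroot : ∀ t : Ω, aeval t (fib f x) = 0 → aeval (t - z₀) (p 1) = 0 := by
    intro t ht
    rw [hp1, aeval_comp, map_add, aeval_X, aeval_C]
    have h1 : t - (z₀ : Ω) + algebraMap M Ω z₀ = t := sub_add_cancel _ _
    rw [h1, ht]
  have hval : ∀ t : Ω, aeval t (p 1) = 0 → V t ^ m = V (algebraMap M Ω π) ^ k := by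
    intro t ht
    have hmon : ((p 1).map (algebraMap M Ω)).Monic := (hpm 1).map _
    have hdeg : ((p 1).map (algebraMap M Ω)).natDegree = m := by
      rw [(hpm 1).natDegree_map, hpd]
    have h1 := hRVL Ω _ V ((p 1).map (algebraMap M Ω)) (V (algebraMap M Ω π) ^ k) hmon
      (by rw [hdeg]; exact hm) (pow_pos hπ0 _) (pow_lt_one₀ hπ0.le hπ1 hk0.ne') (by
        rw [hdeg]
        intro i hi
        rw [coeff_map]
        exact hc1 i hi) (by rw [coeff_map]; exact hc2) t (by
        rw [Polynomial.eval_map_algebraMap]; exact ht)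
    rw [hdeg] at h1
    exact h1
  have hq : ((p 1).map (algebraMap M E')).natDegree = m := by
    rw [(hpm 1).natDegree_map, hpd]
  obtain ⟨τ, hτ⟩ := hIRR E' Ω _ V (algebraMap M E' π) ((p 1).map (algebraMap M E')) k hπ0 hπ1 hUS
    ((hpm 1).map _) (by rw [hq]; exact hm) (by rw [hq]; exact hkm) (by
      intro t ht
      rw [aeval_map_algebraMap] at ht
      rw [hq]
      exact hval t ht) (z - z₀) (z' - z₀) (by rw [aeval_map_algebraMap]; exact hroot z hz)
    (by rw [aeval_map_algebraMap]; exact hroot z' hz')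
  have hτM : ∀ a : M, τ (a : Ω) = a := fun a => τ.commutes (algebraMap M E' a)
  refine ⟨τ.restrictScalars M, ?_, ?_⟩
  · change τ z = z'
    rw [map_sub, hτM] at hτ
    exact sub_left_injective hτ
  · rintro g ⟨a, ha⟩ y hy
    change τ (g y) = g y
    let d : M ≃ₐ[F] M := AlgEquiv.restrictNormalHom M g
    have hgd : ∀ b : M, g b = ((d b : M) : Ω) := fun b =>
      (AlgEquiv.restrictNormalHom_apply M g b).symm
    have hd1 : d ≠ 1 := by
      intro h
      apply ha
      rw [hgd, h]; rfl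
    -- `g y` is a root of the conjugate fibre
    have hgy : aeval (g y) (fib (fd d) (d x)) = 0 := by
      have h1 : fib (fd d) (d x) = (fib f x).map (d : M →+* M) := fib_map (d : M →+* M) f x
      rw [h1, aeval_def, eval₂_map]
      have h2 : (algebraMap M Ω).comp (d : M →+* M) = (g : Ω →+* Ω).comp (algebraMap M Ω) := by
        ext b
        exact (hgd b).symm
      have h3 : eval₂ (algebraMap M Ω) y (fib f x) = 0 := hy
      have h4 := Polynomial.hom_eval₂ (fib f x) (algebraMap M Ω) (g : Ω →+* Ω) y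
      rw [h3, map_zero] at h4
      rw [h2]
      exact h4.symm
    have ht : aeval (g y - ((d z₀ : M) : Ω)) (p d) = 0 := by
      change aeval _ ((fib (fd d) (d x)).comp (X + C (d z₀))) = 0
      rw [aeval_comp, map_add, aeval_X, aeval_C]
      have h1 : g y - ((d z₀ : M) : Ω) + algebraMap M Ω (d z₀) = g y := sub_add_cancel _ _
      rw [h1, hgy]
    have hmem : (g y - ((d z₀ : M) : Ω)) / algebraMap M Ω π ^ r d ∈ S := by
      rw [hS, Finset.mem_biUnion]
      refine ⟨d, Finset.mem_filter.2 ⟨Finset.mem_univ _, hd1⟩, Finset.mem_image.2 ⟨_, ?_, rfl⟩⟩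
      rw [Multiset.mem_toFinset, mem_aroots]
      exact ⟨(hpm d).ne_zero, ht⟩
    have hτu : τ ((g y - ((d z₀ : M) : Ω)) / algebraMap M Ω π ^ r d) =
        (g y - ((d z₀ : M) : Ω)) / algebraMap M Ω π ^ r d :=
      τ.commutes ⟨_, IntermediateField.subset_adjoin M _ hmem⟩
    have hπne : algebraMap M Ω π ^ r d ≠ 0 := by
      apply pow_ne_zero
      intro h
      rw [h, map_zero] at hπ0
      exact lt_irrefl _ hπ0
    have hτπ : τ (algebraMap M Ω π ^ r d) = algebraMap M Ω π ^ r d := by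
      rw [map_pow]
      exact congrArg (· ^ r d) (hτM π)
    rw [map_div₀, hτπ, div_left_inj' hπne, map_sub, hτM] at hτu
    exact sub_left_injective hτu

end Pool.Agent.H29.LA
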