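import Pool.Agent.H29.LA.Stmt
import Pool.Agent.H27.LG.Basic

/-!
# Targets: infinite rank over the fixed fields of special tuples, for group schemes which receive a
curve with a totally ramified point (MP_6b5a9a_nt)
-/

set_option autoImplicit false

open AlgebraicGeometry CategoryTheory Polynomial IntermediateField
open scoped MonObj TensorProduct WithZero
open Pool.H27.LG2

noncomputable section

namespace Pool.Agent.H29.LA

/-! ### Groups -/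

/-- (GRA) groups of order prime to `l`, and groups with a cyclic Sylow `2`-subgroup. -/
def T_GRA : Prop :=
  (∀ (G : Type) [Group G] [Finite G] (l k : ℕ) (φ : G →* Equiv.Perm (Fin (l ^ k))), l.Prime →
    0 < k → (∀ i j, ∃ g, φ g i = j) → ¬ OrderPrimeTo l G) ∧
  (∀ (G : Type) [Group G] [Finite G] (k : ℕ) (φ : G →* Equiv.Perm (Fin (2 ^ k))), 0 < k →
    (∀ i j, ∃ g, φ g i = j) → CyclicSylowTwo G → ∃ g, Equiv.Perm.sign (φ g) = -1)

/-- (GRD) two blocks. -/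
def T_GRD : Prop :=
  ∀ (X : Type) [Fintype X] [DecidableEq X] (p : ℕ) (n g : Equiv.Perm X) (x : X), p.Prime → p ≠ 2 →
    Fintype.card X = 2 * p → orderOf n = p → (∀ y, n y ≠ y) → (∃ c : ℕ, g * n * g⁻¹ = n ^ c) →
    (∀ k : ℕ, (n ^ k) x ≠ g x) → Equiv.Perm.sign g = -1

/-- (GRC) supersolvable groups. -/
def T_GRC : Prop :=
  ∀ (G : Type) [Group G] [Finite G] (p : ℕ) (φ : G →* Equiv.Perm (Fin (2 * p))), p.Prime →
    p ≠ 2 → (∀ i j, ∃ g, φ g i = j) → Supersolvable G → ∃ g, Equiv.Perm.sign (φ g) = -1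

/-- (INH) inheritance. -/
def T_INH : Prop :=
  ∀ (G : Type) [Group G] [Finite G] (H : Subgroup G),
    (∀ l, OrderPrimeTo l G → OrderPrimeTo l H) ∧ (CyclicSylowTwo G → CyclicSylowTwo H) ∧
    (Supersolvable G → Supersolvable H)

/-- (FAC) factorisation through a finite group. -/
def T_FAC : Prop :=
  ∀ (F Ω : Type) [Field F] [Field Ω] [Algebra F Ω] [IsGalois F Ω] (Γ : Subgroup (Ω ≃ₐ[F] Ω))
    (M₀ M E : IntermediateField F Ω), M₀ ≤ M → FiniteDimensional F E →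
    ∀ (m : ℕ) (φ : (Γ ⊓ M.fixingSubgroup : Subgroup (Ω ≃ₐ[F] Ω)) →* Equiv.Perm (Fin m)),
      (∀ g : ↥(Γ ⊓ M.fixingSubgroup), (g : Ω ≃ₐ[F] Ω) ∈ E.fixingSubgroup → φ g = 1) →
      ∃ (E' : IntermediateField F Ω) (_ : FiniteDimensional F E') (_ : IsGalois F E')
        (H : Subgroup ((Γ ⊓ M₀.fixingSubgroup).map (AlgEquiv.restrictNormalHom E')))
        (φ' : H →* Equiv.Perm (Fin m)), (∀ g, ∃ h, φ' h = φ g) ∧ (∀ h, ∃ g, φ g = φ' h)

/-- (CLS) the classes of groups. -/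
def T_CLS : Prop :=
  ∀ (F Ω : Type) [Field F] [Field Ω] [Algebra F Ω] [IsGalois F Ω] (Γ : Subgroup (Ω ≃ₐ[F] Ω)),
    (∀ l k : ℕ, l.Prime → 0 < k → Virtually (fun G _ => OrderPrimeTo l G) Γ →
      OddActions (l ^ k) Γ) ∧
    ((2 : F) ≠ 0 → ∀ k : ℕ, 0 < k → Virtually (fun G _ => CyclicSylowTwo G) Γ →
      OddActions (2 ^ k) Γ) ∧
    ((2 : F) ≠ 0 → ∀ p : ℕ, p.Prime → p ≠ 2 → Virtually (fun G _ => Supersolvable G) Γ →
      OddActions (2 * p) Γ)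

/-! ### Valuations -/

/-- (EXV) extension of a discrete valuation. -/
def T_EXV : Prop :=
  ∀ (M Ω : Type) [Field M] [Field Ω] [Algebra M Ω] (w : Valuation M ℤᵐ⁰) (π : M),
    w π = WithZero.exp (-1 : ℤ) → ∃ W : ValuationSubring Ω,
      0 < W.valuation (algebraMap M Ω π) ∧ W.valuation (algebraMap M Ω π) < 1 ∧
      ∀ (a : M) (n : ℤ), w a = WithZero.exp (-n) →
        W.valuation (algebraMap M Ω a) = W.valuation (algebraMap M Ω π) ^ n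

/-- the values of the nonzero elements of `K` are powers of `c` -/
def Pw (K : Type) {Ω : Type} [Field K] [Field Ω] [Algebra K Ω] {Γ₀ : Type}
    [LinearOrderedCommGroupWithZero Γ₀] (V : Valuation Ω Γ₀) (c : Γ₀) : Prop :=
  ∀ a : K, a ≠ 0 → ∃ n : ℤ, V (algebraMap K Ω a) = c ^ n

/-- (UNR) adjunction of a root with unit derivative. -/
def T_UNR : Prop :=
  ∀ (K Ω : Type) [Field K] [Field Ω] [Algebra K Ω] (Γ₀ : Type)
    [LinearOrderedCommGroupWithZero Γ₀] (V : Valuation Ω Γ₀) (π : K) (u : Ω) (G : K[X]),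
    0 < V (algebraMap K Ω π) → V (algebraMap K Ω π) < 1 → Pw K V (V (algebraMap K Ω π)) →
    G.Monic → (∀ i, V (algebraMap K Ω (G.coeff i)) ≤ 1) → aeval u G = 0 →
    V (aeval u (derivative G)) = 1 →
    Pw (IntermediateField.adjoin K ({u} : Set Ω)) V (V (algebraMap K Ω π))

/-- (UNS) adjunction of several such roots. -/
def T_UNS : Prop :=
  ∀ (K Ω : Type) [Field K] [Field Ω] [Algebra K Ω] (Γ₀ : Type)
    [LinearOrderedCommGroupWithZero Γ₀] (V : Valuation Ω Γ₀) (π : K) (S : Finset Ω),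
    0 < V (algebraMap K Ω π) → V (algebraMap K Ω π) < 1 → Pw K V (V (algebraMap K Ω π)) →
    (∀ u ∈ S, ∃ G : K[X], G.Monic ∧ (∀ i, V (algebraMap K Ω (G.coeff i)) ≤ 1) ∧
      aeval u G = 0 ∧ V (aeval u (derivative G)) = 1) →
    Pw (IntermediateField.adjoin K (S : Set Ω)) V (V (algebraMap K Ω π))

/-- (RVL) the values of the roots. -/
def T_RVL : Prop :=
  ∀ (Ω : Type) [Field Ω] (Γ₀ : Type) [LinearOrderedCommGroupWithZero Γ₀] (V : Valuation Ω Γ₀)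
    (p : Polynomial Ω) (ε : Γ₀), p.Monic → 0 < p.natDegree → 0 < ε → ε < 1 →
    (∀ i < p.natDegree, V (p.coeff i) ≤ ε) → V (p.coeff 0) = ε →
    ∀ t, p.eval t = 0 → V t ^ p.natDegree = ε

/-- (CJR) rescaling of the roots. -/
def T_CJR : Prop :=
  ∀ (K Ω : Type) [Field K] [Field Ω] [Algebra K Ω] (Γ₀ : Type)
    [LinearOrderedCommGroupWithZero Γ₀] (V : Valuation Ω Γ₀) (π : K) (p : K[X]) (r : ℕ), 0 < r →
    0 < V (algebraMap K Ω π) → V (algebraMap K Ω π) < 1 → p.Monic → 0 < p.natDegree →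
    V (p.natDegree : Ω) = 1 →
    (∀ i < p.natDegree, V (algebraMap K Ω (p.coeff i)) ≤ V (algebraMap K Ω π) ^ (r * p.natDegree)) →
    V (algebraMap K Ω (p.coeff 0)) = V (algebraMap K Ω π) ^ (r * p.natDegree) →
    ∃ G : K[X], G.Monic ∧ (∀ i, V (algebraMap K Ω (G.coeff i)) ≤ 1) ∧
      ∀ t : Ω, aeval t p = 0 → aeval (t / algebraMap K Ω π ^ r) G = 0 ∧
        V (aeval (t / algebraMap K Ω π ^ r) (derivative G)) = 1

/-- (IRR) total ramification: the roots are conjugate. -/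
def T_IRR : Prop :=
  ∀ (K Ω : Type) [Field K] [Field Ω] [Algebra K Ω] [IsGalois K Ω] (Γ₀ : Type)
    [LinearOrderedCommGroupWithZero Γ₀] (V : Valuation Ω Γ₀) (π : K) (p : K[X]) (k : ℕ),
    0 < V (algebraMap K Ω π) → V (algebraMap K Ω π) < 1 → Pw K V (V (algebraMap K Ω π)) →
    p.Monic → 0 < p.natDegree → k.Coprime p.natDegree →
    (∀ t : Ω, aeval t p = 0 → V t ^ p.natDegree = V (algebraMap K Ω π) ^ k) →
    ∀ t t' : Ω, aeval t p = 0 → aeval t' p = 0 → ∃ τ : Ω ≃ₐ[K] Ω, τ t = t'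

/-! ### The curve near the totally ramified point -/

/-- the curve `f(x, y) = 0` has degree `m` in `y`, and the point `(x₀, z₀)` is smooth and the only
point above `x₀` -/
structure Ram {K : Type} [Field K] (m : ℕ) (f : K[X][X]) (x₀ z₀ : K) : Prop where
  monic : f.Monic
  deg : f.natDegree = m
  fib : fib f x₀ = (X - C z₀) ^ m
  smooth : (derivative (f.eval (C z₀))).eval x₀ ≠ 0

/-- (LOC) the coefficients of `f(x, z₀ + T)` for `x` near `x₀`. -/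
def T_LOC : Prop :=
  ∀ (M : Type) [Field M] (m : ℕ) (f : M[X][X]) (x₀ z₀ : M), 0 < m → (m : M) ≠ 0 →
    Ram m f x₀ z₀ → ∃ E : Finset M, (∀ e ∈ E, e ≠ 0) ∧
      ∀ (Γ₀ : Type) [LinearOrderedCommGroupWithZero Γ₀] (w : Valuation M Γ₀),
        (∀ e ∈ E, w e = 1) → w (m : M) = 1 ∧ ∀ x : M, w (x - x₀) < 1 →
          (∀ i < m, w (((fib f x).comp (X + C z₀)).coeff i) ≤ w (x - x₀)) ∧
          w (((fib f x).comp (X + C z₀)).coeff 0) = w (x - x₀)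

/-- (TRN) the fibre is totally ramified and the conjugate fibres are unramified. -/
def T_TRN : Prop :=
  ∀ (F Ω : Type) [Field F] [Field Ω] [Algebra F Ω] [IsGalois F Ω] (m : ℕ)
    (M : IntermediateField F Ω) [FiniteDimensional F M] [IsGalois F M] (f : M[X][X]) (x₀ z₀ : M),
    0 < m → (m : F) ≠ 0 → Ram m f x₀ z₀ → ∃ E : Finset M, (∀ e ∈ E, e ≠ 0) ∧
      ∀ (w : Valuation M ℤᵐ⁰) (π x : M), (∀ e ∈ E, w e = 1) → w π = WithZero.exp (-1 : ℤ) →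
        (∃ k : ℕ, 0 < k ∧ k.Coprime m ∧ w (x - x₀) = WithZero.exp (-(k : ℤ))) →
        (∀ d : M ≃ₐ[F] M, d ≠ 1 → ∃ r : ℕ, 0 < r ∧
          w (d (x - x₀)) = WithZero.exp (-((r * m : ℕ) : ℤ))) →
        ∀ z z' : Ω, aeval z (fib f x) = 0 → aeval z' (fib f x) = 0 →
          ∃ τ : Ω ≃ₐ[M] Ω, τ z = z' ∧ ∀ g : Ω ≃ₐ[F] Ω, (∃ a : M, g a ≠ a) →
            ∀ y : Ω, aeval y (fib f x) = 0 → τ (g y) = g y

/-! ### The point -/

/-- (DSC) the discriminant. -/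
def T_DSC : Prop :=
  (∀ (K : Type) [Field K] (f : K[X][X]), f.Monic → 0 < f.natDegree →
    (∀ x, f.discr.eval x ≠ 0 ↔ (fib f x).Separable) ∧
    ∀ (x : K) (z : Fin f.natDegree → K), fib f x = ∏ i, (X - C (z i)) →
      f.discr.eval x = ∏ i, ∏ j ∈ Finset.Ioi i, (z j - z i) ^ 2) ∧
  (∀ (K L : Type) [Field K] [Field L] (i : K →+* L) (f : K[X][X]), f.Monic → 0 < f.natDegree →
    (f.map (mapRingHom i)).discr = f.discr.map i)

/-- (PAR) a square root of the discriminant decides the parity. -/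
def T_PAR : Prop :=
  ∀ (Ω : Type) [Field Ω] (m : ℕ) (z : Fin m → Ω) (g : Ω →+* Ω) (σ : Equiv.Perm (Fin m)) (α : Ω),
    (2 : Ω) ≠ 0 → Function.Injective z → (∀ i, g (z i) = z (σ i)) →
    α ^ 2 = ∏ i, ∏ j ∈ Finset.Ioi i, (z j - z i) ^ 2 → g α = α → Equiv.Perm.sign σ = 1

/-- (CHR) the quadratic characters of the elements of `Γ` which are trivial on `M`. -/
def T_CHR : Prop :=
  ∀ (F Ω : Type) [Field F] [Field Ω] [Algebra F Ω] [IsSepClosed Ω] [IsGalois F Ω]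
    (M : IntermediateField F Ω) [FiniteDimensional F M] [IsGalois F M]
    (Γ : Subgroup (Ω ≃ₐ[F] Ω)), Γ.FG → ∃ (V : Type) (_ : CommGroup V) (_ : Finite V)
      (ρ : Mˣ →* V), (∀ a : V, a ^ 2 = 1) ∧
      ((2 : F) ≠ 0 → ∀ d : Mˣ, ρ d = 1 → ∀ α : Ω, α ^ 2 = algebraMap M Ω d →
        ∀ g ∈ Γ, (∀ a : M, g a = a) → g α = α)

open Classical in
/-- (PCK) a point in a prescribed class close to `x₀`. -/
def T_PCK : Prop :=
  ∀ (M : Type) [Field M] [Infinite M] (V : Type) [CommGroup V] [Finite V] (χ : Mˣ →* V)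
    (D : M[X]) (x₀ : M) (κ h : Mˣ) (Γ₀ : Type) [LinearOrderedCommGroupWithZero Γ₀]
    (v : Valuation M Γ₀) (bd : Γ₀) (s₀ : M), D ≠ 0 → D.Splits →
    (κ : M) = D.leadingCoeff * ((D.roots.filter (fun a => a ≠ x₀)).map (fun a => x₀ - a)).prod →
    s₀ ≠ 0 → v s₀ < bd → ∃ q u y : Mˣ, (u : M) = q + 1 ∧ χ q = χ h ∧ χ u = χ h ∧
      v ((q⁻¹ : Mˣ) : M) < bd ∧ (y : M) = D.eval (x₀ + ((q⁻¹ : Mˣ) : M)) ∧
      χ y = χ κ * (χ h)⁻¹ ^ D.rootMultiplicity x₀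

/-- (IND) an element of a subgroup of finite index with one pole among the conjugates. -/
def T_IND : Prop :=
  ∀ (F M : Type) [Field F] [Infinite F] [Field M] [Algebra F M] [FiniteDimensional F M]
    [Algebra.IsSeparable F M] (H : Subgroup Mˣ) [H.FiniteIndex] (E : Finset M),
    (∃ S : Finset F, Subfield.closure (S : Set F) = ⊤) → (∀ e ∈ E, e ≠ 0) →
    ∃ g ∈ H, ∃ w : Valuation M ℤᵐ⁰, (∀ e ∈ E, w e = 1) ∧ w (g : M) = WithZero.exp (1 : ℤ) ∧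
      ∀ d : M ≃ₐ[F] M, d ≠ 1 → w (d g) = 1

open Classical in
/-- (PNT) the point. -/
def T_PNT : Prop :=
  ∀ (F Ω : Type) [Field F] [Infinite F] [Field Ω] [Algebra F Ω] [IsSepClosed Ω] [IsGalois F Ω]
    (m : ℕ) (M : IntermediateField F Ω) [FiniteDimensional F M] [IsGalois F M]
    (Γ : Subgroup (Ω ≃ₐ[F] Ω)) (f : M[X][X]) (x₀ z₀ : M) (D : M[X]) (Γ₀ : Type)
    [LinearOrderedCommGroupWithZero Γ₀] (v : Valuation Ω Γ₀) (c : Ω),
    (∃ S : Finset F, Subfield.closure (S : Set F) = ⊤) → 1 < m → (m : F) ≠ 0 → Γ.FG →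
    Ram m f x₀ z₀ → D ≠ 0 → D.Splits →
    ((2 : F) ≠ 0 → ∃ s : M, s ^ 2 =
      D.leadingCoeff * ((D.roots.filter (fun a => a ≠ x₀)).map (fun a => x₀ - a)).prod) →
    (∃ t : Ω, t ≠ 0 ∧ v t < 1) → c ≠ 0 →
    ∃ x : M, x ≠ x₀ ∧ v ((x : Ω) - x₀) < v c ∧
      ((2 : F) ≠ 0 → ∀ α : Ω, α ^ 2 = algebraMap M Ω (D.eval x) →
        ∀ g ∈ Γ, (∀ a : M, g a = a) → g α = α) ∧
      ∀ z z' : Ω, aeval z (fib f x) = 0 → aeval z' (fib f x) = 0 →
        ∃ τ : Ω ≃ₐ[M] Ω, τ z = z' ∧ ∀ g : Ω ≃ₐ[F] Ω, (∃ a : M, g a ≠ a) →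
          ∀ y : Ω, aeval y (fib f x) = 0 → τ (g y) = g y

/-- (AVG) averaging over a transitive group. -/
def T_AVG : Prop :=
  ∀ (Z : Type) [Fintype Z] (A : Type) [AddCommGroup A] (ψ : Z → A) (O : Finset Z) (n : ℕ)
    (H : Subgroup (Equiv.Perm Z)), n ≠ 0 → (∀ z z', ∃ h ∈ H, h z = z') →
    (∀ h ∈ H, n • ∑ z ∈ O, ψ (h z) = n • ∑ z ∈ O, ψ z) →
    ∃ N : ℕ, N ≠ 0 ∧ N • (Fintype.card Z • ∑ z ∈ O, ψ z) = N • (O.card • ∑ z, ψ z)

/-- (TRC) the trace. -/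
def T_TRC : Prop :=
  ∀ (F Ω : Type) [Field F] [Field Ω] [Algebra F Ω] [IsGalois F Ω] (Γ : Subgroup (Ω ≃ₐ[F] Ω))
    (A : Type) [AddCommGroup A] [DistribMulAction (Ω ≃ₐ[F] Ω) A],
    (∀ a : A, ∃ E : IntermediateField F Ω, FiniteDimensional F E ∧
      ∀ g ∈ E.fixingSubgroup, g • a = a) →
    FiniteDimensional ℚ (ℚ ⊗[ℤ] FixedPoints.addSubgroup Γ A) →
    ∃ E : IntermediateField F Ω, FiniteDimensional F E ∧
      ∀ (M : IntermediateField F Ω) [FiniteDimensional F M] [IsGalois F M], E ≤ M →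
        ∀ a : A, (∀ g ∈ Γ, g ∈ M.fixingSubgroup → g • a = a) → ∃ n : ℕ, n ≠ 0 ∧
          ∀ τ ∈ M.fixingSubgroup, (∀ g ∈ Γ, g ∉ M.fixingSubgroup → τ • g • a = g • a) →
            n • (τ • a) = n • a

/-- (ORB) a part of the fibre which is stable under the elements of `Γ` over `M`. -/
def T_ORB : Prop :=
  ∀ (F Ω : Type) [Field F] [Field Ω] [Algebra F Ω] [IsGalois F Ω] (m : ℕ)
    (M : IntermediateField F Ω) (Γ : Subgroup (Ω ≃ₐ[F] Ω)) (z : Fin m → Ω), 0 < m →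
    (∀ E : IntermediateField F Ω, FiniteDimensional F E →
      ∀ φ : (Γ ⊓ M.fixingSubgroup : Subgroup (Ω ≃ₐ[F] Ω)) →* Equiv.Perm (Fin m),
        (∀ g : ↥(Γ ⊓ M.fixingSubgroup), (g : Ω ≃ₐ[F] Ω) ∈ E.fixingSubgroup → φ g = 1) →
        (∀ i j, ∃ g, φ g i = j) → (2 : F) ≠ 0 ∧ ∃ g, Equiv.Perm.sign (φ g) = -1) →
    Function.Injective z → (∀ g ∈ M.fixingSubgroup, ∀ i, ∃ j, g (z i) = z j) →
    ((2 : F) ≠ 0 → ∃ α : Ω, α ^ 2 = ∏ i, ∏ j ∈ Finset.Ioi i, (z j - z i) ^ 2 ∧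
      ∀ g ∈ Γ, g ∈ M.fixingSubgroup → g α = α) →
    ∃ O : Finset (Fin m), O.Nonempty ∧ O ≠ Finset.univ ∧
      ∀ g ∈ Γ, g ∈ M.fixingSubgroup → ∀ i ∈ O, ∃ j ∈ O, g (z i) = z j

/-- (ABS) the abstract theorem. -/
def T_ABS : Prop :=
  ∀ (F Ω : Type) [Field F] [Infinite F] [Field Ω] [Algebra F Ω] [IsSepClosed Ω] [IsGalois F Ω]
    (m : ℕ) (f : Polynomial (Polynomial Ω)) (x₀ z₀ : Ω) (L : IntermediateField F Ω) (A : Type)
    [AddCommGroup A] [DistribMulAction (Ω ≃ₐ[F] Ω) A] (ψ : Ω → Ω → A) (Γ₀ : Type)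
    [LinearOrderedCommGroupWithZero Γ₀] (v : Valuation Ω Γ₀) (Γ : Subgroup (Ω ≃ₐ[F] Ω)),
    (∃ S : Finset F, Subfield.closure (S : Set F) = ⊤) → 1 < m → (m : F) ≠ 0 →
    Ram m f x₀ z₀ → f.discr ≠ 0 →
    ((2 : F) ≠ 0 → ∃ D S : Polynomial Ω, D.Splits ∧ f.discr = D * S ^ 2) →
    FiniteDimensional F L → (∀ i j, (f.coeff i).coeff j ∈ L) →
    (∀ a : A, ∃ E : IntermediateField F Ω, FiniteDimensional F E ∧
      ∀ g ∈ E.fixingSubgroup, g • a = a) →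
    (∀ g ∈ L.fixingSubgroup, ∀ x z : Ω, (fib f x).eval z = 0 → ψ (g x) (g z) = g • ψ x z) →
    (∃ t : Ω, t ≠ 0 ∧ v t < 1) →
    (∃ c : Ω, c ≠ 0 ∧ ∀ x : Ω, x ≠ x₀ → v (x - x₀) < v c → ∀ Z O : Finset Ω,
      (∀ z, z ∈ Z ↔ (fib f x).eval z = 0) → O ⊂ Z → O.Nonempty → ∀ N : ℕ, N ≠ 0 →
        N • (m • ∑ z ∈ O, ψ x z) ≠ N • (O.card • ∑ z ∈ Z, ψ x z)) →
    Γ.FG → OddActions m Γ → ¬ FiniteDimensional ℚ (ℚ ⊗[ℤ] FixedPoints.addSubgroup Γ A)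

/-! ### Group schemes -/

/-- (SPL) the ring of the roots. -/
def T_SPL : Prop :=
  ∀ (K : Type) [Field K] (m : ℕ) (f : K[X][X]), f.Monic → f.natDegree = m →
    ∃ (R : Type) (_ : CommRing R) (_ : IsDomain R) (_ : Algebra K[X] R) (y : Fin m → R),
      Function.Injective (algebraMap K[X] R) ∧ Algebra.IsIntegral K[X] R ∧
      f.map (algebraMap K[X] R) = ∏ i, (X - C (y i)) ∧
      Algebra.adjoin K[X] (Set.range y) = ⊤

/-- (HOM) the points of this ring, and the zeros of its elements. -/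
def T_HOM : Prop :=
  ∀ (K : Type) [Field K] (m : ℕ) (f : K[X][X]) (R : Type) [CommRing R] [IsDomain R]
    [Algebra K[X] R] (y : Fin m → R), Function.Injective (algebraMap K[X] R) →
    Algebra.IsIntegral K[X] R → f.map (algebraMap K[X] R) = ∏ i, (X - C (y i)) →
    Algebra.adjoin K[X] (Set.range y) = ⊤ →
    (∀ x : K, (fib f x).Splits →
      ∃ φ : R →+* K, ∀ p : K[X], φ (algebraMap K[X] R p) = p.eval x) ∧
    ∀ a : R, a ≠ 0 → ∃ P : K[X], P ≠ 0 ∧ ∀ (x : K) (φ : R →+* K),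
      (∀ p : K[X], φ (algebraMap K[X] R p) = p.eval x) → φ a = 0 → P.eval x = 0

/-- (EVA) the values of `δ` at the points of the ring of the roots. -/
def T_EVA : Prop :=
  ∀ (F Ω : Type) [Field F] [Field Ω] [Algebra F Ω] (A : Over (Spec (.of F))) [GrpObj A] (m : ℕ)
    (f : Polynomial (Polynomial Ω)) (h : Polynomial Ω) (δ : PointsOf A (PlaneRing f h)) (R : Type)
    [CommRing R] [IsDomain R] [Algebra (Polynomial Ω) R] [Algebra Ω R] [Algebra F R]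
    [IsScalarTower Ω (Polynomial Ω) R] [IsScalarTower F Ω R] (y : Fin m → R),
    f.map (algebraMap (Polynomial Ω) R) = ∏ i, (X - C (y i)) →
    ∃ Δ : Fin m → (SpecOver F (Localization.Away (algebraMap (Polynomial Ω) R h)) ⟶ A),
      ∀ (x : Ω) (φ : R →ₐ[Ω] Ω)
        (θ : Localization.Away (algebraMap (Polynomial Ω) R h) →ₐ[F] Ω),
        (∀ p : Polynomial Ω, φ (algebraMap (Polynomial Ω) R p) = p.eval x) →
        (∀ r, θ (algebraMap R (Localization.Away (algebraMap (Polynomial Ω) R h)) r) = φ r) →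
        h.eval x ≠ 0 → ∀ i, (fib f x).eval (φ (y i)) = 0 ∧ specMap θ ≫ Δ i = val δ x (φ (y i))

/-- (NTR) points near a zero of a morphism are not torsion. -/
def T_NTR : Prop :=
  ∀ (F Ω : Type) [Field F] [Field Ω] [Algebra F Ω] (Γ₀ : Type)
    [LinearOrderedCommGroupWithZero Γ₀] (v : Valuation Ω Γ₀) (A : Over (Spec (.of F)))
    [GrpObj A] [IsSeparated A.hom] [LocallyOfFiniteType A.hom] (R : Type) [CommRing R]
    [IsDomain R] [Algebra Ω R] [Algebra F R] [IsScalarTower F Ω R] (J : Type) [Finite J]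
    (u : J → R) (g : R) (φ₀ : R →ₐ[Ω] Ω) (D : SpecOver F (Localization.Away g) ⟶ A),
    (∀ p : ℕ, p.Prime → (p : Ω) = 0 → {P : SpecOver F Ω ⟶ A | P ^ p = 1}.Finite) →
    Algebra.adjoin Ω (Set.range u) = ⊤ → (∀ i, φ₀ (u i) = 0) → φ₀ g ≠ 0 →
    (∀ θ : Localization.Away g →ₐ[F] Ω, (∀ r, θ (algebraMap R (Localization.Away g) r) = φ₀ r) →
      specMap θ ≫ D = 1) → D ≠ 1 →
    ∃ (d : Ω) (a : R), d ≠ 0 ∧ a ≠ 0 ∧ ∀ φ : R →ₐ[Ω] Ω, (∀ i, v (φ (u i)) < v d) → φ a ≠ 0 →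
      ∀ θ : Localization.Away g →ₐ[F] Ω, (∀ r, θ (algebraMap R (Localization.Away g) r) = φ r) →
        ∀ N : ℕ, N ≠ 0 → (specMap θ ≫ D) ^ N ≠ 1

/-- (NEA) the points above `x` are close to `(x₀, z₀)` if `x` is close to `x₀`. -/
def T_NEA : Prop :=
  ∀ (Ω : Type) [Field Ω] (Γ₀ : Type) [LinearOrderedCommGroupWithZero Γ₀] (v : Valuation Ω Γ₀)
    (m : ℕ) (f : Polynomial (Polynomial Ω)) (x₀ z₀ d : Ω), 0 < m → Ram m f x₀ z₀ → d ≠ 0 →
    ∃ c : Ω, c ≠ 0 ∧ ∀ x z : Ω, (fib f x).eval z = 0 → v (x - x₀) < v c →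
      v (x - x₀) < v d ∧ v (z - z₀) < v d

/-- (NTF) parts of fibres near the totally ramified point. -/
def T_NTF : Prop :=
  ∀ (F Ω : Type) [Field F] [Field Ω] [Algebra F Ω] [IsSepClosed Ω] (Γ₀ : Type)
    [LinearOrderedCommGroupWithZero Γ₀] (v : Valuation Ω Γ₀) (A : Over (Spec (.of F)))
    [GrpObj A] [IsCommMonObj A] [IsSeparated A.hom] [LocallyOfFiniteType A.hom] (m : ℕ)
    (f : Polynomial (Polynomial Ω)) (h : Polynomial Ω) (δ : PointsOf A (PlaneRing f h))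
    (x₀ z₀ x₁ : Ω) (Z₁ : Finset Ω),
    (∀ p : ℕ, p.Prime → (p : Ω) = 0 → {P : SpecOver F Ω ⟶ A | P ^ p = 1}.Finite) → 1 < m →
    Ram m f x₀ z₀ → h.eval x₀ ≠ 0 → h.eval x₁ ≠ 0 → (∀ z, z ∈ Z₁ ↔ (fib f x₁).eval z = 0) →
    Z₁.card = m → (∀ O : Finset Ω, O ⊂ Z₁ → O.Nonempty →
      (∏ z ∈ O, val δ x₁ z) ^ m ≠ (∏ z ∈ Z₁, val δ x₁ z) ^ O.card) →
    ∃ c : Ω, c ≠ 0 ∧ ∀ x : Ω, x ≠ x₀ → v (x - x₀) < v c → ∀ Z O : Finset Ω,
      (∀ z, z ∈ Z ↔ (fib f x).eval z = 0) → O ⊂ Z → O.Nonempty → ∀ N : ℕ, N ≠ 0 →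
        ((∏ z ∈ O, val δ x z) ^ m) ^ N ≠ ((∏ z ∈ Z, val δ x z) ^ O.card) ^ N

/-- (FLD) the field of definition. -/
def T_FLD : Prop :=
  ∀ (F Ω : Type) [Field F] [Field Ω] [Algebra F Ω] [Algebra.IsAlgebraic F Ω]
    (A : Over (Spec (.of F))) [GrpObj A] [LocallyOfFiniteType A.hom]
    (f : Polynomial (Polynomial Ω)) (h : Polynomial Ω) (δ : PointsOf A (PlaneRing f h)),
    ∃ L : IntermediateField F Ω, FiniteDimensional F L ∧
      (∀ i j, (f.coeff i).coeff j ∈ L) ∧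
      ∀ τ : Ω ≃ₐ[F] Ω, τ ∈ L.fixingSubgroup → ∀ x z : Ω, (fib f x).eval z = 0 →
        specMap (τ : Ω →ₐ[F] Ω) ≫ val δ x z = val δ (τ x) (τ z)

/-- (FIN) the theorem. -/
def T_FIN : Prop :=
  ∀ (F : Type) [Field F] [Infinite F] (A : Over (Spec (.of F))) [GrpObj A] [IsCommMonObj A]
    [IsSeparated A.hom] [LocallyOfFiniteType A.hom] (m : ℕ) (Γ : Subgroup (SeparableClosure F ≃ₐ[F]
      SeparableClosure F)),
    (∃ S : Finset F, Subfield.closure (S : Set F) = ⊤) →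
    FiniteCharTorsion A (SeparableClosure F) → 1 < m → (m : F) ≠ 0 →
    ReceivesCurve (SeparableClosure F) A m → Γ.FG → OddActions m Γ →
    HasInfiniteRank A (IntermediateField.fixedField Γ)

end Pool.Agent.H29.LA
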